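import Pool.Agent.Helper45.PQ.StA

/-!
# Module ZER of project PQ (MP_a1f43d_co)

There is a heavy point.
-/

set_option autoImplicit false

open Module Classical
open scoped LinearAlgebra.Projectivization

namespace Pool.Agent.Helper40.PQ

open Pool.Agent.Helper45.PQ

universe u v

theorem hZER (h1 : StDGT.{u, v}) (h2 : StRKA.{u, v}) : StZER.{u, v} := by
  intro F _ _ V _ _ _ Q T H m h j c
  by_contra hne
  rw [Finset.not_nonempty_iff_eq_empty] at hne
  have hdeg := (h1 F V Q T H m h j c).2.1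
  have hperp : ∀ P ∈ T, ∀ R ∈ T, P ≠ R → QuadraticMap.polar Q P.rep R.rep ≠ 0 := by
    intro P hP R hR hPR h0
    have h3 := hdeg P hP
    rw [hne, Finset.filter_empty, Finset.sum_empty] at h3
    have h4 : R ∈ T.filter (fun X => X ≠ P ∧ QuadraticMap.polar Q P.rep X.rep = 0) :=
      Finset.mem_filter.2 ⟨hR, fun h => hPR h.symm, h0⟩
    have h5 : 0 < (T.filter (fun X => X ≠ P ∧ QuadraticMap.polar Q P.rep X.rep = 0)).card :=
      Finset.card_pos.2 ⟨R, h4⟩
    omega
  have hQ : ∃ x, Q x ≠ 0 := by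
    by_contra hcon
    push Not at hcon
    have h3 := c.qd.mx ⊤ fun x _ => hcon x
    rw [finrank_top, c.qd.hd] at h3
    omega
  have hcard := (h2 F V Q h c.hq c.h1).1 c.qd.hd hQ T c.sT hperp
  rw [c.cT, c.hq] at hcard
  have h81 : (3 ^ h) ^ 4 = 81 ^ h := by
    rw [← pow_mul, mul_comm, pow_mul]
    norm_num
  rw [h81] at hcard
  have hlt : 44 ^ h < 81 ^ h := Nat.pow_lt_pow_left (by norm_num) (by have := c.h1; omega)
  omega

end Pool.Agent.Helper40.PQ
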